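import Pool.Agent.Helper22.RKI.St

/-!
# Project RK, part (i), module ASM: assembly
-/

set_option autoImplicit false

namespace Pool.Agent.Helper87.RKI

open Pool.Agent.Helper43.RK Pool.Agent.Helper22.RKI

theorem conj_two {G : Type} [Group G] (f t : G) (h : f⁻¹ * t * f = t ^ 2) (m : ℕ) :
    (f ^ m)⁻¹ * t * f ^ m = t ^ (2 ^ m) := by
  induction m with
  | zero => simp
  | succ m ih =>
    have h1 : (f ^ (m + 1))⁻¹ * t * f ^ (m + 1) = f⁻¹ * ((f ^ m)⁻¹ * t * f ^ m) * f := by
      rw [pow_succ]; group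
    have h2 : f⁻¹ * t ^ (2 ^ m) * f = (f⁻¹ * t * f) ^ (2 ^ m) := by
      have := map_pow (MulAut.conj f⁻¹) t (2 ^ m)
      simpa [MulAut.conj_apply] using this
    rw [h1, ih, h2, h, ← pow_mul, pow_succ, mul_comm]

theorem map_cj {G H : Type} [Group G] [Group H] (φ : G →* H) (a t : G) (i : ℤ) :
    φ (cj a t i) = cj (φ a) (φ t) i := by
  simp [cj]

theorem hASM : StASM := by
  intro hSC hTH hT3 hCO1 hCO2 hDY hS0 hFORM hNUM hNUM2 hCEN hWT hCOM hRC n k β hPar hgcd G _ g a t
    hB hcl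
  have hk7 : 7 ≤ k := by
    have := hPar.k8
    omega
  have hn1 : 1 ≤ n := by
    have := hPar.nodd
    omega
  obtain ⟨hft, hfa, hrel⟩ := hS0 n k β G g a t hB
  set f := g ^ 4 with hf
  obtain ⟨hf1, htM, hY⟩ := hFORM hSC hTH hT3 hCO1 hCO2 hDY n k (by omega) G f a t hft hfa hrel
  -- order of t
  have ht1 : t ^ (2 ^ (k ^ 2 - 1) - 1) = 1 := by
    have h1 := conj_two f t hft (k ^ 2 - 1)
    rw [hf1, inv_one, one_mul, mul_one] at h1
    have h2 : t * t ^ (2 ^ (k ^ 2 - 1) - 1) = t * 1 := by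
      rw [mul_one, ← pow_succ']
      have h3 : 2 ^ (k ^ 2 - 1) - 1 + 1 = 2 ^ (k ^ 2 - 1) := Nat.sub_add_cancel Nat.one_le_two_pow
      rw [h3]
      exact h1.symm
    exact mul_left_cancel h2
  have hod := hNUM n k β hPar (orderOf t) (orderOf_dvd_of_pow_eq_one ht1)
    (orderOf_dvd_of_pow_eq_one htM)
  have htk : t ^ (2 ^ (k - 1) - 1) = 1 := orderOf_dvd_iff_pow_eq_one.1 hod
  obtain ⟨hZZ, hZt, hZa, haa⟩ := hCEN n k (by omega) (by have := hPar.k8; omega) G f a t hft hfa
    hrel hY hf1 htk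
  have ht4 := hWT hNUM2 n k β hPar hgcd G g a t hB hZZ hZt hZa haa hrel htk
  -- `2 n ∣ k - 1`
  have h2n : 2 * n ∣ k - 1 := by
    apply Nat.Coprime.mul_dvd_of_dvd_of_dvd
    · rw [Nat.coprime_two_left]
      exact Nat.odd_iff.2 hPar.nodd
    · have := hPar.k8
      omega
    · exact hPar.kn
  -- `f^(k-1)` and `Z`
  have hZ : f ^ (1 - (k : ℤ)) = (f ^ (k - 1))⁻¹ := by
    rw [← zpow_natCast, ← zpow_neg]
    congr 1
    push_cast [Nat.cast_sub (by omega : 1 ≤ k)]
    ring
  have hfk2 : f ^ (k - 1) * f ^ (k - 1) = 1 := by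
    rw [hZ, ← mul_inv_rev] at hZZ
    exact inv_eq_one.1 hZZ
  have hfk : f ^ k = f * f ^ (k - 1) := by
    rw [← pow_succ']
    congr 1
    omega
  -- the central element
  set z := g ^ (8 * n) with hz
  have hzf : z = f ^ (2 * n) := by
    rw [hz, hf, ← pow_mul]
    congr 1
    ring
  have hzt : z * t = t * z := by
    have h1 := conj_two f t hft (2 * n)
    have h2 : t ^ (2 ^ (2 * n)) = t := by
      have h3 : 2 ^ (2 * n) = (4 ^ n - 1) + 1 := by
        have h4 : (2 : ℕ) ^ (2 * n) = 4 ^ n := by rw [pow_mul]; norm_num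
        rw [h4]
        exact (Nat.sub_add_cancel (Nat.one_le_pow _ _ (by norm_num))).symm
      rw [h3, pow_succ, ht4, one_mul]
    rw [h2, ← hzf] at h1
    calc z * t = z * (z⁻¹ * t * z) := by rw [h1]
      _ = t * z := by group
  have hza : z * a = a * z := by
    have h1 : a⁻¹ * f ^ (2 * n) * a = (a⁻¹ * f * a) ^ (2 * n) := by
      have := map_pow (MulAut.conj a⁻¹) f (2 * n)
      simpa [MulAut.conj_apply] using this
    have h2 : (f ^ k) ^ (2 * n) = f ^ (2 * n) := by
      rw [hfk, (Commute.pow_right (Commute.refl f) (k - 1)).mul_pow, pow_mul (f ^ (k - 1)) 2 n,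
        pow_two (f ^ (k - 1)), hfk2, one_pow, mul_one]
    rw [hfa, h2, ← hzf] at h1
    calc z * a = a * (a⁻¹ * z * a) := by group
      _ = a * z := by rw [h1]
  have hzg : z * g = g * z := by
    rw [hz, ← pow_succ, ← pow_succ']
  have hzc : ∀ x : G, z * x = x * z := by
    have h1 : Subgroup.closure {g, a, t} ≤ Subgroup.centralizer ({z} : Set G) := by
      rw [Subgroup.closure_le]
      intro x hx
      rw [SetLike.mem_coe, Subgroup.mem_centralizer_singleton_iff]
      rcases hx with rfl | rfl | rfl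
      · exact hzg.symm
      · exact hza.symm
      · exact hzt.symm
    rw [hcl] at h1
    intro x
    have h2 := h1 (Subgroup.mem_top x)
    rw [Subgroup.mem_centralizer_singleton_iff] at h2
    exact h2.symm
  have hN : (Subgroup.zpowers z).Normal := by
    constructor
    intro x hx y
    obtain ⟨i, rfl⟩ := Subgroup.mem_zpowers_iff.1 hx
    have h1 : Commute (z ^ i) y := (show Commute z y from hzc y).zpow_left i
    have h2 : y * z ^ i * y⁻¹ = z ^ i := by
      rw [← h1.eq, mul_inv_cancel_right]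
    rw [h2]
    exact hx
  have hfin : Finite (Subgroup.zpowers z) := by
    have h1 : IsOfFinOrder z := by
      rw [isOfFinOrder_iff_pow_eq_one]
      refine ⟨k ^ 2 - 1, ?_, ?_⟩
      · have : 1 < k ^ 2 := Nat.one_lt_pow (by norm_num) (by omega)
        omega
      · rw [hzf, ← pow_mul, mul_comm, pow_mul, hf1, one_pow]
    exact (finite_zpowers.2 h1).to_subtype
  refine ⟨Subgroup.zpowers z, hN, hfin, ?_⟩
  have := hN
  set π : G →* G ⧸ Subgroup.zpowers z := QuotientGroup.mk' (Subgroup.zpowers z) with hπ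
  show RelC n β (π g) (π a) (π t)
  have hker : ∀ x : G, x ∈ Subgroup.zpowers z → π x = 1 := by
    intro x hx
    rw [hπ, QuotientGroup.mk'_apply]
    exact (QuotientGroup.eq_one_iff x).2 hx
  have hπz : π z = 1 := hker z (Subgroup.mem_zpowers z)
  have hπfk : π (f ^ (k - 1)) = 1 := by
    obtain ⟨m, hm⟩ := h2n
    rw [hm, pow_mul, ← hzf, map_pow, hπz, one_pow]
  have hπZ : π (f ^ (1 - (k : ℤ))) = 1 := by
    rw [hZ, map_inv, hπfk, inv_one]
  have hRB : RelB n k β (π g) (π a) (π t) := by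
    refine ⟨?_, ?_, ?_⟩
    · have := congrArg π hB.r1
      simpa using this
    · have := congrArg π hB.r2
      simpa using this
    · have := congrArg π hB.r3
      rw [map_mul, map_mul, map_inv, map_pow, map_mul, map_inv, map_cj] at this
      exact this
  refine hRC hCOM n k β hPar _ (π g) (π a) (π t) hRB ?_ ?_ ?_ ?_ ?_
  · rw [← map_mul, haa, hπZ]
  · rw [← map_pow, ← hz, hπz]
  · have h1 := congrArg π hfa
    rw [hfk, map_mul, map_mul, map_inv, map_mul, hπfk, mul_one, hf, map_pow] at h1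
    calc π g ^ 4 * π a = π a * ((π a)⁻¹ * π g ^ 4 * π a) := by group
      _ = π a * π g ^ 4 := by rw [h1]
  · have h1 := congrArg π hrel
    have hπZ' : (π f) ^ (1 - (k : ℤ)) = 1 := by
      rw [← map_zpow]
      exact hπZ
    simp only [map_mul, map_inv, map_zpow, hπZ', mul_one] at h1
    have h2 : π a * cj (π a) (π t) 1 = π a * (π t)⁻¹ * π a * π t := by
      simp only [cj, zpow_neg, zpow_one, mul_assoc]
    rw [h2, h1, cj]
    have h3 : -(1 - (2 : ℤ) ^ n) = 2 ^ n - 1 := by ring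
    have h4 : (1 - (2 : ℤ) ^ n) = -(2 : ℤ) ^ n + 1 := by ring
    rw [h3, h4, zpow_add_one, ← mul_assoc]
  · rw [← map_pow, ht4, map_one]

end Pool.Agent.Helper87.RKI
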